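import Mathlib

/-!
Project OZ (MP_c2395a_nt): many irrational odd zeta values.
Definitions and exact statements of the parts.
-/

set_option autoImplicit false
open Polynomial Filter Topology
open scoped Nat Classical

namespace Pool.Agent.W849.OZ

noncomputable section

/-- `zet i = 1 + 2^(-i) + 3^(-i) + ...` -/
def zet (i : ℕ) : ℝ := ∑' n : ℕ, 1 / ((n : ℝ) + 1) ^ i

/-- least common multiple of `1, ..., n` -/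
def dn (n : ℕ) : ℕ := (Finset.Icc 1 n).lcm id

/-- the fractions in `(0,1]` with denominator at most `K` -/
def FK (K : ℕ) : Finset ℚ :=
  (Finset.Icc 1 K).biUnion fun b => (Finset.Icc 1 b).image fun j : ℕ => (j : ℚ) / (b : ℚ)

/-- the weight of a fraction -/
def wr (K : ℕ) (w : ℕ → ℤ) (r : ℚ) : ℤ := ∑ b ∈ (Finset.Icc 1 K).filter (fun b => r.den ∣ b), w b

/-- block of zeros `t = -l + r`, `1 ≤ l ≤ n`, normalised -/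
def tb (n : ℕ) (r : ℚ) : ℚ[X] :=
  C ((r.den : ℚ) ^ (2 * n) / (n ! : ℚ)) * ∏ l ∈ Finset.Icc 1 n, (X + C ((l : ℚ) - r))

/-- numerator -/
def num (n K : ℕ) : ℚ[X] := (C 2 * X + C (n : ℚ)) * ∏ r ∈ (FK K).erase 1, tb n r

/-- `R(t)` -/
def RR (n s K : ℕ) (t : ℝ) : ℝ :=
  aeval t (num n K) * ((n ! : ℝ) / ∏ k ∈ Finset.range (n + 1), (t + (k : ℝ))) ^ s

/-- `x(t) = t (t + n)` -/
def xx (n : ℕ) : ℚ[X] := X * (X + C (n : ℚ))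

/-- the basis of the polynomials in `x`: `Rh n j` has degree `j` -/
def Rh (n j : ℕ) : ℚ[X] :=
  C (1 / ((n ! : ℚ) ^ (j / (n / 2 + 1)) * ((j % (n / 2 + 1))! : ℚ) ^ 2)) *
    (∏ l ∈ Finset.range (n / 2 + 1), (X + C ((l : ℚ) * ((n : ℚ) - l)))) ^ (j / (n / 2 + 1)) *
    ∏ l ∈ Finset.range (j % (n / 2 + 1)), (X + C ((l : ℚ) * ((n : ℚ) - l)))

/-- integrality of the Taylor coefficients at `0, -1, ..., -n` up to powers of `dn n` -/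
def good (n : ℕ) (E : ℚ[X]) : Prop :=
  ∀ k : ℕ, k ≤ n → ∀ J : ℕ, ∃ z : ℤ, (dn n : ℚ) ^ J * (taylor (-(k : ℚ)) E).coeff J = z

/-- the same with one more power of `dn n` -/
def good1 (n : ℕ) (E : ℚ[X]) : Prop :=
  ∀ k : ℕ, k ≤ n → ∀ J : ℕ, ∃ z : ℤ, (dn n : ℚ) ^ (J + 1) * (taylor (-(k : ℚ)) E).coeff J = z

/-- the power series of `n! / ∏_{k' ≠ k} (u + k' - k)` -/
def br (n k : ℕ) : PowerSeries ℚ :=
  PowerSeries.C (n ! : ℚ) * ∏ k' ∈ (Finset.range (n + 1)).erase k,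
    (PowerSeries.C ((k' : ℚ) - k) + PowerSeries.X)⁻¹

/-- partial fraction coefficients of `Q(t) (n! / ∏ (t+k))^s` -/
def ac (n s : ℕ) (Q : ℚ[X]) (i k : ℕ) : ℚ :=
  PowerSeries.coeff (s - i) (((taylor (-(k : ℚ)) Q : ℚ[X]) : PowerSeries ℚ) * br n k ^ s)

/-- upper bound for `Rh n j` at `t (t + n)` -/
def bnd (n j : ℕ) (t : ℝ) : ℝ :=
  (1 + t / n) ^ (2 * j) * Real.exp (2 * j + 2 * n) * (t + n) ^ (2 * (j / (n / 2 + 1)))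

/-- exponents in the upper bound -/
def Aex (s K : ℕ) : ℝ := 5 * s / 16 + 4 + ((FK K).card - 1 : ℕ) +
    2 * ((FK K).card - 1 : ℕ) * Real.log K

/-- exponents in the upper bound -/
def kap (s K : ℕ) : ℝ := 11 * s / 16 - ((FK K).card - 1 : ℕ) - 3

/-- the exponential rate in the upper bound -/
def rate (s K f : ℕ) : ℝ :=
  Aex s K - kap s K * ((1 + 32 * f / s) * Real.log (1 + s / (32 * f)) - 1)

/-- lower bound for the product of the differences of the nodes -/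
def lowD (K f n L : ℕ) : ℝ :=
  (1 / (K : ℝ) ^ 2) ^ (3 * f) * (((L : ℝ) / (2 * Real.exp 1)) ^ L / (L : ℝ) ^ 3) ^ f *
    (((L : ℝ) / Real.exp 1) ^ L) ^ f / ((L : ℝ) + n)

/-- the atoms `t` of the measure, in groups of `f` per unit interval -/
structure Atoms (f K : ℕ) (τ : ℕ → ℝ) : Prop where
  lo : ∀ a : ℕ, ((a / f : ℕ) : ℝ) + 1 / (K : ℝ) ≤ τ a
  hi : ∀ a : ℕ, τ a ≤ ((a / f : ℕ) : ℝ) + 1
  sep : ∀ a b : ℕ, a ≠ b → 1 / (K : ℝ) ^ 2 ≤ |τ a - τ b|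

/-- numerical criterion -/
def crit (s K : ℕ) : Prop := 32 * (FK K).card ≤ s ∧ ∀ f : ℕ, 1 ≤ f → f ≤ (FK K).card →
  rate s K f < -(s * Real.log 4)

/-! ### Part A: integrality -/

/-- A1 -/
def S_BR : Prop := ∀ n k J : ℕ, k ≤ n → ∃ z : ℤ, (dn n : ℚ) ^ J * PowerSeries.coeff J (br n k) = z

/-- A2a: binomial coefficients at rational points -/
def S_BIN1 : Prop := ∀ (a : ℤ) (b m : ℕ), 0 < b → ∃ z : ℤ, (b : ℚ) ^ (2 * m) *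
    ((∏ i ∈ Finset.range m, ((a : ℚ) / b - i)) / (m ! : ℚ)) = z

/-- A2b: coefficients of `binom (X + y) m` -/
def S_BIN2 : Prop := ∀ (n m : ℕ) (y : ℚ) (J : ℕ), m ≤ n →
  ∃ z : ℤ, (dn n : ℚ) ^ J * ((y.den : ℚ) ^ (2 * m) *
    (C (1 / (m ! : ℚ)) * ∏ l ∈ Finset.range m, (X + C (y - (l : ℚ)))).coeff J) = z

/-- A3 -/
def S_TBG : Prop := ∀ (n : ℕ) (r : ℚ), good n (tb n r)

/-- A4 -/
def S_TBG1 : Prop := ∀ (n l : ℕ) (r : ℚ), 1 ≤ l → l ≤ n →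
  good1 n (C ((r.den : ℚ) ^ (2 * n) / (n ! : ℚ)) *
    ∏ l' ∈ (Finset.Icc 1 n).erase l, (X + C ((l' : ℚ) - r)))

/-- A5 -/
def S_GOODM : Prop := (∀ (n : ℕ) (E E' : ℚ[X]), good n E → good n E' → good n (E * E')) ∧
  (∀ (n : ℕ) (E E' : ℚ[X]), good n E → good1 n E' → good1 n (E * E')) ∧
  (∀ (n : ℕ) (E : ℚ[X]), (∀ J, ∃ z : ℤ, E.coeff J = z) → good n E)

/-- A6 -/
def S_RHG : Prop := ∀ n j : ℕ, Even n → 0 < n → good n ((Rh n j).comp (xx n))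

/-- A7: partial fractions -/
def S_PF : Prop := ∀ (n s : ℕ) (Q : ℚ[X]), 1 ≤ s → Q.natDegree + 1 ≤ (n + 1) * s →
  ∀ t : ℝ, (∀ k : ℕ, k ≤ n → t + (k : ℝ) ≠ 0) →
    aeval t Q * ((n ! : ℝ) / ∏ k ∈ Finset.range (n + 1), (t + (k : ℝ))) ^ s =
      ∑ k ∈ Finset.range (n + 1), ∑ i ∈ Finset.Icc 1 s, (ac n s Q i k : ℝ) / (t + (k : ℝ)) ^ i

/-- A8: integrality, values at zeros of `Q` -/
def S_AC : Prop := ∀ (n s : ℕ) (Q : ℚ[X]), 1 ≤ s → good n Q →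
  (∀ i k : ℕ, 1 ≤ i → i ≤ s → k ≤ n → ∃ z : ℤ, (dn n : ℚ) ^ (s - i) * ac n s Q i k = z) ∧
  (∀ (E : ℚ[X]) (t0 : ℚ) (k : ℕ), k ≤ n → t0 + k ≠ 0 → Q = (X - C t0) * E → good1 n E →
    ∃ z : ℤ, (dn n : ℚ) ^ s * ∑ i ∈ Finset.Icc 1 s, ac n s Q i k / (t0 + k) ^ i = z)

/-- A9 -/
def S_SYM : Prop := ∀ (n s : ℕ) (Q : ℚ[X]), 1 ≤ s → Even s → Q.natDegree + 2 ≤ (n + 1) * s →
  Q.comp (-X - C (n : ℚ)) = -Q →
  (∀ i : ℕ, 1 ≤ i → i ≤ s → Even i → ∑ k ∈ Finset.range (n + 1), ac n s Q i k = 0) ∧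
  ∑ k ∈ Finset.range (n + 1), ac n s Q 1 k = 0

/-- A10: Hurwitz sums over all fractions -/
def S_HUR : Prop := ∀ (K : ℕ) (w : ℕ → ℤ) (i : ℕ), 2 ≤ i →
  ∑ r ∈ FK K, (wr K w r : ℝ) * ∑' m : ℕ, 1 / ((m : ℝ) + (r : ℝ)) ^ i =
    (∑ b ∈ Finset.Icc 1 K, (w b : ℝ) * (b : ℝ) ^ i) * zet i

/-- A11: summation of the partial fractions -/
def S_SUM : Prop := ∀ (n s : ℕ) (a : ℕ → ℕ → ℝ) (r : ℝ), 0 < r → 1 ≤ s →
  ∑ k ∈ Finset.range (n + 1), a 1 k = 0 →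
  HasSum (fun m : ℕ => ∑ k ∈ Finset.range (n + 1), ∑ i ∈ Finset.Icc 1 s,
      a i k / ((m : ℝ) + r + (k : ℝ)) ^ i)
    (∑ i ∈ Finset.Icc 2 s, (∑ k ∈ Finset.range (n + 1), a i k) * (∑' m : ℕ, 1 / ((m : ℝ) + r) ^ i) -
      ∑ k ∈ Finset.range (n + 1), ∑ l ∈ Finset.range k, ∑ i ∈ Finset.Icc 1 s,
        a i k / ((l : ℝ) + r) ^ i)

/-- A12: properties of `num` -/
def S_NUMP : Prop := ∀ n K : ℕ, 1 ≤ K → good n (num n K) ∧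
  (Even n → (num n K).comp (-X - C (n : ℚ)) = -num n K) ∧
  (num n K).natDegree ≤ 1 + n * ((FK K).card - 1) ∧
  ∀ r ∈ FK K, 0 < r ∧ r ≤ 1 ∧ (r ≠ 1 → ∀ l : ℕ, 1 ≤ l → l ≤ n →
    ∃ E : ℚ[X], num n K = (X - C (r - (l : ℚ))) * E ∧ good1 n E)

/-- A13: the rational number -/
def S_INT : Prop := ∀ (s K : ℕ) (w : ℕ → ℤ), Even s → 2 ≤ s → 1 ≤ K →
  (∀ i : ℕ, Odd i → 3 ≤ i → i ≤ s →
    (∃ q : ℚ, zet i = (q : ℝ)) ∨ ∑ b ∈ Finset.Icc 1 K, w b * (b : ℤ) ^ i = 0) →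
  ∃ q0 : ℕ, 0 < q0 ∧ ∀ (n : ℕ) (E : ℚ[X]), Even n → 0 < n → good n E →
    E.comp (-X - C (n : ℚ)) = E → E.natDegree + n * ((FK K).card - 1) + 3 ≤ (n + 1) * s →
    ∃ z : ℤ, (q0 : ℝ) * (dn n : ℝ) ^ s * (∑' m : ℕ, ∑ r ∈ FK K, (wr K w r : ℝ) *
      (RR n s K ((m : ℝ) + (r : ℝ)) * aeval ((m : ℝ) + (r : ℝ)) E)) = z

/-! ### Part B: linear algebra and enumeration of the atoms -/

/-- B1 -/
def S_ELIM : Prop := ∀ (K : ℕ) (I : Finset ℕ), I.card < K → ∃ w : ℕ → ℤ,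
  (∃ b ∈ Finset.Icc 1 K, w b ≠ 0) ∧ ∀ i ∈ I, ∑ b ∈ Finset.Icc 1 K, w b * (b : ℤ) ^ i = 0

/-- B2 -/
def S_RANK : Prop := ∀ (N M : ℕ) (A : Fin N → Fin M → ℝ),
  (∀ c : Fin N → ℝ, (∀ j, ∑ i, c i * A i j = 0) → c = 0) →
  ∃ J : Fin N → Fin M, (Matrix.of fun i j : Fin N => A i (J j)).det ≠ 0

/-- B3 -/
def S_ENUM : Prop := ∀ (K : ℕ) (w : ℕ → ℤ), (∃ b ∈ Finset.Icc 1 K, w b ≠ 0) →
  ∃ (f : ℕ) (τ W : ℕ → ℝ) (B : ℝ), 1 ≤ f ∧ f ≤ (FK K).card ∧ Atoms f K τ ∧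
    (∀ a, 1 ≤ |W a| ∧ |W a| ≤ B) ∧ ∀ g : ℝ → ℝ,
    (∀ r ∈ FK K, Summable (fun m : ℕ => g ((m : ℝ) + (r : ℝ)))) →
    Summable (fun a : ℕ => W a * g (τ a)) ∧
    ∑' m : ℕ, ∑ r ∈ FK K, (wr K w r : ℝ) * g ((m : ℝ) + (r : ℝ)) = ∑' a : ℕ, W a * g (τ a)

/-- B4 -/
def S_CARD : Prop := ∀ K : ℕ, 1 ≤ K → 1 ≤ (FK K).card ∧ 2 * (FK K).card ≤ 2 + K * (K - 1)

/-- B5 -/
def S_SPAN : Prop := ∀ (n M : ℕ) (Q : ℝ[X]), (∀ c : Fin M → ℝ,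
    ∑ j, C (c j) * (Rh n j).map (algebraMap ℚ ℝ) = 0 → c = 0) ∧
  (∀ c : Fin M → ℝ, 0 < M → (∑ j, C (c j) * (Rh n j).map (algebraMap ℚ ℝ)).natDegree < M) ∧
  (Q.natDegree < M → ∃ c : Fin M → ℝ, Q = ∑ j, C (c j) * (Rh n j).map (algebraMap ℚ ℝ))

/-- B6 -/
def S_SYMR : Prop := ∀ (n : ℕ) (P : ℚ[X]), (P.comp (xx n)).comp (-X - C (n : ℚ)) = P.comp (xx n) ∧
  (P.comp (xx n)).natDegree = 2 * P.natDegree ∧
  (∀ t : ℝ, aeval t (P.comp (xx n)) = aeval (t * (t + n)) P) ∧ ∀ j, (Rh n j).natDegree = j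

/-- B7 -/
def S_SMB : Prop := ∀ (n s K : ℕ) (P : ℝ[X]) (r : ℝ), 0 < r → 1 ≤ n →
  2 * P.natDegree + n * ((FK K).card - 1) + 3 ≤ (n + 1) * s →
  Summable (fun m : ℕ => RR n s K ((m : ℝ) + r) * P.eval (((m : ℝ) + r) * ((m : ℝ) + r + n)))

/-- B8 -/
def S_DN : Prop := ∀ c : ℝ, Real.log 4 < c → ∀ᶠ n : ℕ in atTop, (dn n : ℝ) ≤ Real.exp (c * n)

/-! ### Part C: estimates -/

/-- C1 -/
def S_RUP : Prop := ∀ (n s K : ℕ) (t : ℝ), 1 ≤ n → 1 ≤ K → 0 < t → 0 < RR n s K t ∧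
  RR n s K t * t ^ s * (1 + t / n) ^ (n * s) ≤
    (2 * t + n) * ((K : ℝ) ^ (2 * n) * Real.exp n * (1 + t / n) ^ n) ^ ((FK K).card - 1)

/-- C2 -/
def S_RRAT : Prop := ∀ (n s K : ℕ) (a t : ℝ), 1 ≤ n → 1 ≤ K → 0 < a → a ≤ t →
  (FK K).card - 1 ≤ s →
  RR n s K t * (2 * a + n) * (t + n) ^ ((n + 1) * (s - ((FK K).card - 1))) ≤
    RR n s K a * (2 * t + n) * (a + n) ^ ((n + 1) * (s - ((FK K).card - 1)))

/-- C3 -/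
def S_EUP : Prop := ∀ (n j : ℕ) (t : ℝ), Even n → 0 < n → 0 < t →
  |aeval (t * (t + n)) (Rh n j)| ≤ bnd n j t ∧ ∀ j' : ℕ, j ≤ j' → bnd n j t ≤ bnd n j' t

/-- C4 -/
def S_DET : Prop := ∀ (N : ℕ) (T : Finset ℕ) (ω : ℕ → ℝ) (u v : Fin N → ℕ → ℝ) (U V : ℕ → ℝ),
  (∀ i a, |u i a| ≤ U a) → (∀ j a, |v j a| ≤ V a) →
  |(Matrix.of fun i j : Fin N => ∑ a ∈ T, ω a * u i a * v j a).det| ≤
    (N ! : ℝ) ^ 2 * ∑ A ∈ T.powersetCard N, ∏ a ∈ A, |ω a| * U a * V a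

/-- C5 -/
def S_ESYM : Prop := ∀ (N Y : ℕ) (c : ℕ → ℝ), (∀ a, 0 ≤ c a) →
  ∑ A ∈ (Finset.range Y).powersetCard N, ∏ a ∈ A, c a ≤
    ∏ b ∈ Finset.range N, ∑ a ∈ Finset.Ico b Y, c a

/-- C6 -/
def S_DETI : Prop := ∀ (N : ℕ) (ω : ℕ → ℝ) (u v : Fin N → ℕ → ℝ) (U V : ℕ → ℝ),
  (∀ i a, |u i a| ≤ U a) → (∀ j a, |v j a| ≤ V a) → Summable (fun a => |ω a| * U a * V a) →
  |(Matrix.of fun i j : Fin N => ∑' a : ℕ, ω a * u i a * v j a).det| ≤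
    (N ! : ℝ) ^ 2 * ∏ b ∈ Finset.range N, ∑' a : ℕ, |ω (a + b)| * U (a + b) * V (a + b)

/-- C7: pointwise bound -/
def S_CA : Prop := ∀ (s K f e n N : ℕ) (τ W : ℕ → ℝ) (B : ℝ), n = 32 * f * e → N = f * s * e →
  1 ≤ f → 1 ≤ K → 1 ≤ e → 32 * (FK K).card ≤ s → Atoms f K τ → (∀ a, |W a| ≤ B) → s + 1 ≤ n →
  ∀ a : ℕ, |W a * RR n s K (τ a)| * bnd n N (τ a) * bnd n (4 * N) (τ a) ≤
    2 * B * (K : ℝ) ^ s * (n : ℝ) ^ (s + 1) * Real.exp (n * Aex s K) *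
      (1 + ((a / f : ℕ) : ℝ) / n) ^ (-(n * (kap s K + 2)) : ℝ)

/-- C8: tails -/
def S_TSUM : Prop := ∀ (n f b : ℕ) (κ : ℝ), 1 ≤ n → 1 ≤ f → 0 ≤ κ →
  Summable (fun a : ℕ => (1 + (((a + b) / f : ℕ) : ℝ) / n) ^ (-(n * (κ + 2)) : ℝ)) ∧
  ∑' a : ℕ, (1 + (((a + b) / f : ℕ) : ℝ) / n) ^ (-(n * (κ + 2)) : ℝ) ≤
    2 * f * (1 + ((b / f : ℕ) : ℝ) / n) ^ (-(n * κ) : ℝ)

/-- C9 -/
def S_LSUM : Prop := ∀ n L : ℕ, 1 ≤ n →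
  ((n : ℝ) + L) * Real.log (1 + (L : ℝ) / n) - L - Real.log (1 + (L : ℝ) / n) ≤
    ∑ m ∈ Finset.range L, Real.log (1 + (m : ℝ) / n)

/-- C10 -/
def S_PROD : Prop := ∀ (n f L : ℕ) (κ : ℝ), 1 ≤ n → 1 ≤ f → 0 ≤ κ →
  ∏ b ∈ Finset.range (f * L), (1 + ((b / f : ℕ) : ℝ) / n) ^ (-(n * κ) : ℝ) ≤
    Real.exp (-(n * κ * f *
      (((n : ℝ) + L) * Real.log (1 + (L : ℝ) / n) - L - Real.log (1 + (L : ℝ) / n))))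

/-- C11: numerical part of the upper bound -/
def S_UPN : Prop := ∀ (s K f : ℕ) (B c : ℝ), 1 ≤ f → 1 ≤ K → 1 ≤ s → 0 ≤ kap s K → 0 ≤ B →
  rate s K f < c → ∀ᶠ e : ℕ in atTop, ∀ n L N : ℕ, n = 32 * f * e → L = s * e → N = f * s * e →
    (N ! : ℝ) ^ 2 *
      (2 * B * (K : ℝ) ^ s * (n : ℝ) ^ (s + 1) * Real.exp (n * Aex s K) * (2 * f)) ^ N *
      Real.exp (-(n * kap s K * f *
        (((n : ℝ) + L) * Real.log (1 + (L : ℝ) / n) - L - Real.log (1 + (L : ℝ) / n)))) ≤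
    Real.exp (c * N * n)

/-- C12: upper bound of the determinants -/
def S_UP : Prop := ∀ (s K f : ℕ) (τ W : ℕ → ℝ) (B c : ℝ), 1 ≤ f → 1 ≤ K →
  32 * (FK K).card ≤ s → Atoms f K τ → (∀ a, |W a| ≤ B) → rate s K f < c →
  ∀ᶠ e : ℕ in atTop, ∀ n N : ℕ, n = 32 * f * e → N = f * s * e → ∀ J : Fin N → Fin (4 * N),
    |(Matrix.of fun i j : Fin N => ∑' a : ℕ, W a * RR n s K (τ a) *
      aeval (τ a * (τ a + n)) (Rh n i) * aeval (τ a * (τ a + n)) (Rh n (J j))).det| ≤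
    Real.exp (c * N * n)

/-- C13: Lagrange interpolation argument -/
def S_LAG : Prop := ∀ (N M : ℕ) (x ω : ℕ → ℝ), 1 ≤ N → N ≤ M → (∀ a, 0 < x a) →
  (∀ a b, a < M → b < M → a ≠ b → x a ≠ x b) → (∀ a b, a < M → M ≤ b → x a < x b) →
  (∀ a, a < N → ω a ≠ 0) → Summable (fun b => |ω (b + M)| * x (b + M) ^ (N + M - 2)) →
  ∑ a ∈ Finset.range N, (∑' b : ℕ, |ω (b + M)| * x (b + M) ^ (N + M - 2)) /
    (|ω a| * (∏ b ∈ (Finset.range N).erase a, |x a - x b|) *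
      ∏ b ∈ (Finset.range M).erase a, |x a - x b|) < 1 →
  ∀ P : ℝ[X], P ≠ 0 → P.natDegree < N → ∃ Q : ℝ[X], Q.natDegree < M ∧
    ∑' a : ℕ, ω a * P.eval (x a) * Q.eval (x a) ≠ 0

/-- C14: differences of the nodes -/
def S_DEL : Prop := ∀ (f K n L a : ℕ) (τ : ℕ → ℝ), 1 ≤ f → 1 ≤ K → Atoms f K τ → 1 ≤ n →
  3 ≤ L → a < f * L →
  lowD K f n L ≤ ∏ b ∈ (Finset.range (f * L)).erase a, |τ a * (τ a + n) - τ b * (τ b + n)|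

/-- C15: tail of the measure -/
def S_TAIL : Prop := ∀ (s K f e n L N : ℕ) (τ W : ℕ → ℝ) (B : ℝ),
  n = 32 * f * e → L = s * e → N = f * s * e →
  1 ≤ f → 1 ≤ K → 1 ≤ e → 32 * (FK K).card ≤ s → Atoms f K τ →
  (∀ a, 1 ≤ |W a| ∧ |W a| ≤ B) →
  Summable (fun b : ℕ => |W (b + 4 * N) * RR n s K (τ (b + 4 * N))| *
    (τ (b + 4 * N) * (τ (b + 4 * N) + n)) ^ (N + 4 * N - 2)) ∧
  ∀ a : ℕ, a < N → ∑' b : ℕ, |W (b + 4 * N) * RR n s K (τ (b + 4 * N))| *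
    (τ (b + 4 * N) * (τ (b + 4 * N) + n)) ^ (N + 4 * N - 2) ≤
    |W a * RR n s K (τ a)| * (4 * B * f * (((L : ℝ) + n) / (4 * L + n)) ^ (31 * N) *
      (4 * (L : ℝ) + n) ^ (10 * N - 1))

/-- C16: numerical part of the nonvanishing -/
def S_NVN : Prop := ∀ (s K f : ℕ) (B : ℝ), 1 ≤ f → 1 ≤ K → 32 * f ≤ s → 0 ≤ B →
  ∀ᶠ e : ℕ in atTop, ∀ n L N : ℕ, n = 32 * f * e → L = s * e → N = f * s * e →
    (N : ℝ) * (4 * B * f * (((L : ℝ) + n) / (4 * L + n)) ^ (31 * N) *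
      (4 * (L : ℝ) + n) ^ (10 * N - 1)) < lowD K f n L * lowD K f n (4 * L)

/-- C17: nonvanishing -/
def S_NV : Prop := ∀ (s K f : ℕ) (τ W : ℕ → ℝ) (B : ℝ), 1 ≤ f → 1 ≤ K →
  32 * (FK K).card ≤ s → f ≤ (FK K).card → Atoms f K τ → (∀ a, 1 ≤ |W a| ∧ |W a| ≤ B) →
  ∀ᶠ e : ℕ in atTop, ∀ n N : ℕ, n = 32 * f * e → N = f * s * e →
    ∀ P : ℝ[X], P ≠ 0 → P.natDegree < N → ∃ Q : ℝ[X], Q.natDegree < 4 * N ∧
      ∑' a : ℕ, W a * RR n s K (τ a) * P.eval (τ a * (τ a + n)) *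
        Q.eval (τ a * (τ a + n)) ≠ 0

/-! ### Part D: conclusion -/

/-- D1 -/
def S_CRIT : Prop := ∀ (s K : ℕ), Even s → 2 ≤ s → 1 ≤ K → crit s K →
  K ≤ ((Finset.Icc 3 s).filter (fun i => Odd i ∧ Irrational (zet i))).card

/-- D2 -/
def S_NUM : Prop := ∀ᶠ s : ℕ in atTop, ∀ K s' : ℕ, 1 ≤ K → s' ≤ s → s ≤ s' + 1 →
  (K : ℝ) ≤ Real.sqrt (s * Real.log (Real.log s) / Real.log s) + 1 → crit s' K

/-- D3: the theorem -/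
def S_MAIN : Prop := ∀ᶠ s : ℕ in atTop,
  Real.sqrt (s * Real.log (Real.log s) / Real.log s) ≤
    ((Finset.Icc 3 s).filter (fun i => Odd i ∧ Irrational (zet i))).card

end

end Pool.Agent.W849.OZ
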